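import Pool.Agent.Q260.GM.DefsA

set_option autoImplicit false

/-! # The Laplace transform of `ψ(e^w) - e^w` under the mean square bound -/

namespace Pool.Agent.Q213.GM

open MeasureTheory Filter Topology Set Complex
open Pool.Agent.Q260.GM

noncomputable section

theorem ph_meas : Measurable ph :=
  ((Chebyshev.psi_mono.measurable).comp Real.measurable_exp).sub Real.measurable_exp

/-- the Laplace transform of `ph` -/
def FF (s : ℂ) : ℂ := ∫ w in Ioi (0 : ℝ), (ph w : ℂ) * cexp (-(s * w))

theorem ph_abs_int (h : L2psi) {σ : ℝ} (hσ : 1 / 2 < σ) :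
    IntegrableOn (fun w => |ph w| * Real.exp (-(σ * w))) (Ioi 0) := by
  have h1 := h (σ + 1 / 2) (by linarith)
  have h2 : IntegrableOn (fun w : ℝ => Real.exp ((-(σ - 1 / 2)) * w)) (Ioi 0) :=
    integrableOn_exp_mul_Ioi (by linarith) 0
  refine Integrable.mono' (h1.add h2) ?_ (Eventually.of_forall fun w => ?_)
  · exact ((continuous_abs.measurable.comp ph_meas).mul (by fun_prop)).aestronglyMeasurable
  · rw [Real.norm_of_nonneg (by positivity)]
    have e1 : ph w ^ 2 * Real.exp (-((σ + 1 / 2) * w)) =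
        (|ph w| * Real.exp (-((σ + 1 / 2) * w) / 2)) ^ 2 := by
      rw [mul_pow, sq_abs, ← Real.exp_nat_mul]; congr 2; push_cast; ring
    have e2 : Real.exp ((-(σ - 1 / 2)) * w) = (Real.exp ((-(σ - 1 / 2)) * w / 2)) ^ 2 := by
      rw [← Real.exp_nat_mul]; congr 1; push_cast; ring
    have e3 : |ph w| * Real.exp (-(σ * w)) =
        (|ph w| * Real.exp (-((σ + 1 / 2) * w) / 2)) * (Real.exp ((-(σ - 1 / 2)) * w / 2)) := by
      rw [mul_assoc, ← Real.exp_add]; congr 2; ring
    simp only [Pi.add_apply]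
    rw [e1, e2, e3]
    nlinarith [sq_nonneg (|ph w| * Real.exp (-((σ + 1 / 2) * w) / 2) - Real.exp ((-(σ - 1 / 2)) * w / 2)),
      sq_nonneg (|ph w| * Real.exp (-((σ + 1 / 2) * w) / 2)), sq_nonneg (Real.exp ((-(σ - 1 / 2)) * w / 2))]

theorem norm_term (s : ℂ) (w : ℝ) : ‖(ph w : ℂ) * cexp (-(s * w))‖ = |ph w| * Real.exp (-(s.re * w)) := by
  rw [norm_mul, Complex.norm_real, Real.norm_eq_abs, Complex.norm_exp]
  simp

theorem ph_c_meas : Measurable (fun w : ℝ => (ph w : ℂ)) := Complex.measurable_ofReal.comp ph_meas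

theorem term_meas (s : ℂ) : Measurable (fun w : ℝ => (ph w : ℂ) * cexp (-(s * w))) :=
  ph_c_meas.mul (by fun_prop)

theorem term_int (h : L2psi) {s : ℂ} (hs : 1 / 2 < s.re) :
    IntegrableOn (fun w : ℝ => (ph w : ℂ) * cexp (-(s * w))) (Ioi 0) := by
  refine Integrable.mono' (ph_abs_int h hs) (term_meas s).aestronglyMeasurable
    (Eventually.of_forall fun w => ?_)
  rw [norm_term]

theorem FF_diff (h : L2psi) {z : ℂ} (hz : 1 / 2 < z.re) : DifferentiableAt ℂ FF z := by
  set r := (z.re - 1 / 2) / 2 with hr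
  have hr0 : 0 < r := by rw [hr]; linarith
  have hbound : IntegrableOn (fun w : ℝ => (2 / r) * (|ph w| * Real.exp (-((z.re - 3 * r / 2) * w)))) (Ioi 0) :=
    (ph_abs_int h (by rw [hr]; linarith)).const_mul _
  have key := hasDerivAt_integral_of_dominated_loc_of_deriv_le (𝕜 := ℂ) (μ := volume.restrict (Ioi (0:ℝ)))
    (F := fun z v => (ph v : ℂ) * cexp (-(z * v)))
    (F' := fun z v => (ph v : ℂ) * (-(v : ℂ) * cexp (-(z * v))))
    (x₀ := z) (s := Metric.ball z r)
    (bound := fun w => (2 / r) * (|ph w| * Real.exp (-((z.re - 3 * r / 2) * w))))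
    (Metric.ball_mem_nhds z hr0)
    (Eventually.of_forall fun w => (term_meas w).aestronglyMeasurable)
    (term_int h hz)
    ((ph_c_meas.mul (by fun_prop)).aestronglyMeasurable)
    ((ae_restrict_iff' measurableSet_Ioi).2 (Eventually.of_forall fun v hv w hw => by
      have hv0 : 0 < v := hv
      have hw1 : z.re - r < w.re := by
        rw [Metric.mem_ball, dist_eq_norm] at hw
        have h2 := (Complex.abs_re_le_norm (w - z)).trans_lt hw
        rw [Complex.sub_re] at h2
        linarith [neg_abs_le (w.re - z.re)]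
      rw [norm_mul, norm_mul, norm_neg, Complex.norm_real, Complex.norm_real, Real.norm_eq_abs,
        Real.norm_eq_abs, abs_of_pos hv0, Complex.norm_exp]
      have e1 : (-(w * (v:ℂ))).re = -(w.re * v) := by simp
      rw [e1]
      have h3 : v ≤ 2 / r * Real.exp (r / 2 * v) := by
        have h4 := Real.add_one_le_exp (r / 2 * v)
        have h5 : v = 2 / r * (r / 2 * v) := by field_simp
        calc v = 2 / r * (r / 2 * v) := h5
          _ ≤ _ := by gcongr; linarith
      have h6 : Real.exp (-(w.re * v)) ≤ Real.exp (-((z.re - r) * v)) := by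
        refine Real.exp_le_exp.2 ?_
        nlinarith
      calc |ph v| * (v * Real.exp (-(w.re * v))) ≤
            |ph v| * ((2 / r * Real.exp (r / 2 * v)) * Real.exp (-((z.re - r) * v))) := by
            gcongr
        _ = (2 / r) * (|ph v| * (Real.exp (r / 2 * v) * Real.exp (-((z.re - r) * v)))) := by ring
        _ = _ := by
          rw [← Real.exp_add]
          congr 3
          ring))
    hbound
    (Eventually.of_forall fun v w _ => by
      have h1 : HasDerivAt (fun w : ℂ => -(w * (v:ℂ))) (-(1 * (v:ℂ))) w :=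
        ((hasDerivAt_id w).mul_const (v:ℂ)).neg
      have h2 := h1.cexp.const_mul (ph v : ℂ)
      have e : (ph v : ℂ) * (-(v : ℂ) * cexp (-(w * v))) = (ph v : ℂ) * (cexp (-(w * v)) * -(1 * (v : ℂ))) := by
        ring
      rw [e]
      exact h2)
  exact key.2.differentiableAt

theorem Z1_ne {s : ℂ} (hs : s ≠ 1) : riemannZeta₁ s = (s - 1) * riemannZeta s := by
  rw [riemannZeta_eq_inv_sub_mul hs]
  have : s - 1 ≠ 0 := sub_ne_zero.2 hs
  field_simp

/-- change of variables to the logarithmic scale -/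
theorem exp_change_Ioi (g : ℝ → ℂ) : ∫ t in Ioi (1:ℝ), g t = ∫ v in Ioi (0:ℝ), (Real.exp v : ℂ) * g (Real.exp v) := by
  have himg : Real.exp '' Ioi 0 = Ioi 1 := by
    ext y
    constructor
    · rintro ⟨v, hv, rfl⟩
      exact Real.one_lt_exp_iff.2 hv
    · intro hy
      have hy1 : (1:ℝ) < y := hy
      exact ⟨Real.log y, Real.log_pos hy1, Real.exp_log (by linarith)⟩
  rw [← himg, integral_image_eq_integral_abs_deriv_smul measurableSet_Ioi
    (fun x _ => (Real.hasDerivAt_exp x).hasDerivWithinAt) Real.exp_injective.injOn]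
  refine setIntegral_congr_fun measurableSet_Ioi fun v _ => ?_
  simp only [abs_of_pos (Real.exp_pos v), Complex.real_smul]

theorem ph_le : ∃ C : ℝ, 0 ≤ C ∧ ∀ w : ℝ, |ph w| ≤ C * Real.exp w := by
  refine ⟨Real.log 4 + 4 + 1, by positivity, fun w => ?_⟩
  have h1 := Chebyshev.psi_le_const_mul_self (x := Real.exp w) (Real.exp_pos w).le
  have h2 := Chebyshev.psi_nonneg (Real.exp w)
  have h3 := Real.exp_pos w
  have h4 : 0 ≤ Real.log 4 := Real.log_nonneg (by norm_num)
  unfold ph
  rw [abs_le]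
  constructor <;> nlinarith

theorem FF_eq_right {s : ℂ} (hs : 1 < s.re) :
    s * FF s * riemannZeta₁ s = -deriv riemannZeta₁ s - riemannZeta₁ s := by
  have hs0 : s ≠ 0 := by
    rintro rfl
    simp at hs
    linarith
  have hs1 : s ≠ 1 := by
    rintro rfl
    simp at hs
  -- the L-series
  have hO : (fun n : ℕ => ∑ k ∈ Finset.Icc 1 n, ArithmeticFunction.vonMangoldt k) =O[atTop]
      fun n : ℕ => (n : ℝ) ^ (1 : ℝ) := by
    obtain ⟨C, hC⟩ : ∃ C : ℝ, ∀ x : ℝ, 0 ≤ x → Chebyshev.psi x ≤ C * x :=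
      ⟨Real.log 4 + 4, fun x hx => Chebyshev.psi_le_const_mul_self hx⟩
    refine Asymptotics.IsBigO.of_bound C (Eventually.of_forall fun n => ?_)
    have h1 := hC n (Nat.cast_nonneg n)
    rw [Real.rpow_one, Real.norm_of_nonneg (Finset.sum_nonneg fun _ _ =>
      ArithmeticFunction.vonMangoldt_nonneg), Real.norm_of_nonneg (Nat.cast_nonneg n)]
    refine le_trans (le_of_eq ?_) h1
    unfold Chebyshev.psi
    rw [Nat.floor_natCast]
    rfl
  have key := LSeries_eq_mul_integral_of_nonneg (fun n => ArithmeticFunction.vonMangoldt n) (r := 1)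
    zero_le_one (s := s) hs hO (fun n => ArithmeticFunction.vonMangoldt_nonneg)
  rw [ArithmeticFunction.LSeries_vonMangoldt_eq_deriv_riemannZeta_div hs] at key
  rw [exp_change_Ioi] at key
  have hI : ∫ v in Ioi (0:ℝ), (Real.exp v : ℂ) * ((∑ k ∈ Finset.Icc 1 ⌊Real.exp v⌋₊,
      ((ArithmeticFunction.vonMangoldt k : ℝ) : ℂ)) * ((Real.exp v : ℝ) : ℂ) ^ (-(s + 1))) =
      ∫ v in Ioi (0:ℝ), ((ph v : ℂ) * cexp (-(s * v)) + cexp (-(s - 1) * v)) := by
    refine setIntegral_congr_fun measurableSet_Ioi fun v _ => ?_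
    have h1 : (∑ k ∈ Finset.Icc 1 ⌊Real.exp v⌋₊, ((ArithmeticFunction.vonMangoldt k : ℝ) : ℂ)) =
        (Chebyshev.psi (Real.exp v) : ℂ) := by
      unfold Chebyshev.psi
      push_cast
      rfl
    have h2 : ((Real.exp v : ℝ) : ℂ) ^ (-(s + 1)) = cexp (-(s + 1) * v) := by
      rw [Complex.cpow_def_of_ne_zero (by exact_mod_cast (Real.exp_pos v).ne'), ← Complex.ofReal_log
        (Real.exp_pos v).le, Real.log_exp]
      congr 1
      ring
    rw [h1, h2]
    unfold ph
    push_cast
    have e1 : cexp (-(s + 1) * v) = cexp (-v) * cexp (-(s * v)) := by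
      rw [← Complex.exp_add]; congr 1; ring
    have e2 : cexp (v : ℂ) * cexp (-(v : ℂ)) = 1 := by rw [← Complex.exp_add]; simp
    have e3 : cexp (-(s - 1) * v) = cexp v * cexp (-(s * v)) := by
      rw [← Complex.exp_add]; congr 1; ring
    rw [e1, e3]
    linear_combination (Chebyshev.psi (Real.exp v) : ℂ) * cexp (-(s * v)) * e2
  rw [hI] at key
  obtain ⟨C, hC0, hC⟩ := ph_le
  have hi1 : IntegrableOn (fun v : ℝ => (ph v : ℂ) * cexp (-(s * v))) (Ioi 0) := by
    have h1 : IntegrableOn (fun v : ℝ => C * Real.exp ((-(s.re - 1)) * v)) (Ioi 0) :=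
      (integrableOn_exp_mul_Ioi (by linarith) 0).const_mul _
    refine Integrable.mono' h1 (term_meas s).aestronglyMeasurable (Eventually.of_forall fun v => ?_)
    rw [norm_term]
    calc |ph v| * Real.exp (-(s.re * v)) ≤ (C * Real.exp v) * Real.exp (-(s.re * v)) := by
          gcongr; exact hC v
      _ = _ := by rw [mul_assoc, ← Real.exp_add]; congr 2; ring
  have hi2 : IntegrableOn (fun v : ℝ => cexp (-(s - 1) * v)) (Ioi 0) :=
    integrableOn_exp_mul_complex_Ioi (by simpa using hs) 0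
  rw [integral_add hi1 hi2, integral_exp_mul_complex_Ioi (by simpa using hs) 0] at key
  have hLT : FF s = ∫ v in Ioi (0:ℝ), (ph v : ℂ) * cexp (-(s * v)) := rfl
  rw [← hLT] at key
  have hzeta : riemannZeta s ≠ 0 := riemannZeta_ne_zero_of_one_lt_re hs
  have hZ1 := Z1_ne hs1
  have hdZ : deriv riemannZeta₁ s = riemannZeta s + (s - 1) * deriv riemannZeta s := by
    have h4 : riemannZeta₁ =ᶠ[𝓝 s] fun w => (w - 1) * riemannZeta w := by
      filter_upwards [isOpen_ne.mem_nhds hs1] with w hw
      exact Z1_ne hw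
    rw [h4.deriv_eq]
    have h5 := ((hasDerivAt_id s).sub_const 1).mul (differentiableAt_riemannZeta hs1).hasDerivAt
    have h6 : HasDerivAt (fun z => (z - 1) * riemannZeta z)
      (1 * riemannZeta s + (s - 1) * deriv riemannZeta s) s := h5
    rw [h6.deriv]
    ring
  rw [hdZ, hZ1]
  have e5 : -cexp (-(s - 1) * ((0:ℝ) : ℂ)) / -(s - 1) = 1 / (s - 1) := by
    rw [Complex.ofReal_zero, mul_zero, Complex.exp_zero, neg_div_neg_eq]
  rw [e5] at key
  have hs1' : s - 1 ≠ 0 := sub_ne_zero.2 hs1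
  field_simp at key
  linear_combination -key

theorem FF_eq (h : L2psi) {s : ℂ} (hs : 1 / 2 < s.re) :
    s * FF s * riemannZeta₁ s = -deriv riemannZeta₁ s - riemannZeta₁ s := by
  have hopen : IsOpen {z : ℂ | 1 / 2 < z.re} := isOpen_lt continuous_const Complex.continuous_re
  have hconn : IsPreconnected {z : ℂ | 1 / 2 < z.re} := (convex_halfSpace_re_gt (1 / 2)).isPreconnected
  have hA1 : AnalyticOnNhd ℂ (fun s => s * FF s * riemannZeta₁ s) {z : ℂ | 1 / 2 < z.re} := by
    refine DifferentiableOn.analyticOnNhd (fun z hz => DifferentiableAt.differentiableWithinAt ?_) hopen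
    exact (differentiableAt_id.mul (FF_diff h hz)).mul differentiable_riemannZeta₁.differentiableAt
  have hA2 : AnalyticOnNhd ℂ (fun s => -deriv riemannZeta₁ s - riemannZeta₁ s) {z : ℂ | 1 / 2 < z.re} := by
    refine DifferentiableOn.analyticOnNhd (fun z hz => DifferentiableAt.differentiableWithinAt ?_) hopen
    exact (differentiable_riemannZeta₁.deriv.differentiableAt.neg).sub
      differentiable_riemannZeta₁.differentiableAt
  have h2 : (2 : ℂ) ∈ {z : ℂ | 1 / 2 < z.re} := by simp; norm_num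
  refine hA1.eqOn_of_preconnected_of_eventuallyEq hA2 hconn h2 ?_ hs
  have h3 : {z : ℂ | 1 < z.re} ∈ 𝓝 (2 : ℂ) :=
    (isOpen_lt continuous_const Complex.continuous_re).mem_nhds (by simp)
  filter_upwards [h3] with z hz
  exact FF_eq_right hz

theorem Z1_ne_zero (h : L2psi) {s : ℂ} (hs : 1 / 2 < s.re) : riemannZeta₁ s ≠ 0 := by
  intro h0
  have hopen : IsOpen {z : ℂ | 1 / 2 < z.re} := isOpen_lt continuous_const Complex.continuous_re
  have hA : AnalyticAt ℂ riemannZeta₁ s := differentiable_riemannZeta₁.analyticAt s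
  have hg : AnalyticAt ℂ (fun s => -(s * FF s + 1)) s := by
    refine DifferentiableOn.analyticAt (s := {z : ℂ | 1 / 2 < z.re}) (fun z hz => ?_)
      (hopen.mem_nhds hs)
    exact ((differentiableAt_id.mul (FF_diff h hz)).add_const 1).neg.differentiableWithinAt
  have h1 := hA.analyticOrderAt_deriv_add_one
  have h2 : (fun z => riemannZeta₁ z - riemannZeta₁ s) = riemannZeta₁ := by
    funext z; rw [h0, sub_zero]
  rw [h2] at h1
  have h3 : deriv riemannZeta₁ =ᶠ[𝓝 s] (fun s => -(s * FF s + 1)) * riemannZeta₁ := by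
    filter_upwards [hopen.mem_nhds hs] with z hz
    have := FF_eq h hz
    simp only [Pi.mul_apply]
    linear_combination this
  rw [analyticOrderAt_congr h3, analyticOrderAt_mul hg hA] at h1
  have h4 : analyticOrderAt riemannZeta₁ s = ⊤ := by
    by_contra hne
    obtain ⟨n, hn⟩ := ENat.ne_top_iff_exists.1 hne
    rw [← hn] at h1
    have h5 : (n : ℕ∞) + 1 ≤ n := by
      calc (n : ℕ∞) + 1 ≤ (analyticOrderAt (fun s => -(s * FF s + 1)) s + n) + 1 := by
            gcongr
            exact le_add_self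
        _ = n := h1
    have h6 : (n + 1 : ℕ) ≤ n := by exact_mod_cast h5
    omega
  rw [analyticOrderAt_eq_top] at h4
  have h5 : AnalyticOnNhd ℂ riemannZeta₁ univ := fun z _ => differentiable_riemannZeta₁.analyticAt z
  have h6 : EqOn riemannZeta₁ 0 univ :=
    h5.eqOn_of_preconnected_of_eventuallyEq analyticOnNhd_const isPreconnected_univ (mem_univ s) h4
  have h7 := h6 (mem_univ (1 : ℂ))
  simp at h7

theorem zeta_ne_zero (h : L2psi) {s : ℂ} (hs : 1 / 2 < s.re) : riemannZeta s ≠ 0 := by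
  by_cases h1 : s = 1
  · rw [h1]
    exact riemannZeta_ne_zero_of_one_le_re (by simp)
  · intro h0
    refine Z1_ne_zero h hs ?_
    rw [Z1_ne h1, h0, mul_zero]

theorem RH_of (h : ∀ s : ℂ, 1 / 2 < s.re → riemannZeta s ≠ 0) : RiemannHypothesis := by
  intro s hs htriv h1
  by_contra hne
  rcases lt_or_gt_of_ne hne with hlt | hgt
  · have hs0 : s ≠ 0 := by
      rintro rfl
      rw [riemannZeta_zero] at hs
      norm_num at hs
    have hG : Gammaℝ s ≠ 0 := by
      intro hG
      rw [Gammaℝ_eq_zero_iff] at hG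
      obtain ⟨n, hn⟩ := hG
      rcases Nat.eq_zero_or_pos n with rfl | hn0
      · simp at hn
        exact hs0 hn
      · obtain ⟨m, rfl⟩ := Nat.exists_eq_add_of_lt hn0
        refine htriv ⟨m, ?_⟩
        rw [hn]
        push_cast
        ring
    have hc : completedRiemannZeta s = 0 := by
      rw [riemannZeta_def_of_ne_zero hs0, div_eq_zero_iff] at hs
      exact hs.resolve_right hG
    have h2 : riemannZeta (1 - s) = 0 := by
      rw [riemannZeta_def_of_ne_zero (sub_ne_zero.2 (Ne.symm h1)), completedRiemannZeta_one_sub, hc, zero_div]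
    refine h (1 - s) ?_ h2
    simp
    linarith
  · exact h s hgt hs

/-- J6b -/
theorem rh_of_L2 (h : L2psi) : RiemannHypothesis := RH_of fun _ hs => zeta_ne_zero h hs

end

end Pool.Agent.Q213.GM
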