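import Pool.Agent.Q213.GM.Lap

set_option autoImplicit false

/-! # J6c: the Laplace transform of the error in short intervals -/

namespace Pool.Agent.Q213.GM

open MeasureTheory Filter Topology Set Complex
open Pool.Agent.Q260.GM

noncomputable section

theorem deriv_Z1 {s : ℂ} (hs1 : s ≠ 1) :
    deriv riemannZeta₁ s = riemannZeta s + (s - 1) * deriv riemannZeta s := by
  have h4 : riemannZeta₁ =ᶠ[𝓝 s] fun w => (w - 1) * riemannZeta w := by
    filter_upwards [isOpen_ne.mem_nhds hs1] with w hw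
    exact Z1_ne hw
  rw [h4.deriv_eq]
  have h5 := ((hasDerivAt_id s).sub_const 1).mul (differentiableAt_riemannZeta hs1).hasDerivAt
  have h6 : HasDerivAt (fun z => (z - 1) * riemannZeta z)
    (1 * riemannZeta s + (s - 1) * deriv riemannZeta s) s := h5
  rw [h6.deriv]
  ring

theorem FF_val (h : L2psi) {s : ℂ} (hs : 1 / 2 < s.re) (hs1 : s ≠ 1) :
    FF s = -(deriv riemannZeta s / riemannZeta s) / s - 1 / (s - 1) := by
  have h1 := FF_eq h hs
  have h2 := zeta_ne_zero h hs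
  rw [deriv_Z1 hs1, Z1_ne hs1] at h1
  have hs0 : s ≠ 0 := by
    rintro rfl
    simp at hs
    linarith
  have hs1' : s - 1 ≠ 0 := sub_ne_zero.2 hs1
  field_simp
  linear_combination h1

theorem ph_small {y : ℝ} (hy : y ≤ 1 / 2) : ph y = -Real.exp y := by
  unfold ph
  have h1 : Real.exp y < 2 := by
    have h2 : Real.exp y ≤ Real.exp (1 / 2) := Real.exp_le_exp.2 hy
    have h3 : Real.exp (1 / 2) ^ 2 = Real.exp 1 := by
      rw [← Real.exp_nat_mul]; norm_num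
    have h4 : Real.exp 1 < 4 := by
      have := Real.exp_one_lt_d9
      linarith
    nlinarith [Real.exp_pos (1 / 2)]
  rw [Chebyshev.psi_eq_zero_of_lt_two h1]
  ring

theorem initial {κ : ℝ} (hκ : 0 < κ) (hκ2 : κ ≤ 1 / 2) {s : ℂ} (hs1 : s ≠ 1) :
    ∫ y in (0 : ℝ)..κ, (ph y : ℂ) * cexp (-(s * y)) = (cexp ((1 - s) * κ) - 1) / (s - 1) := by
  have e : ∫ y in (0 : ℝ)..κ, (ph y : ℂ) * cexp (-(s * y)) = ∫ y in (0 : ℝ)..κ, -cexp ((1 - s) * y) := by
    refine intervalIntegral.integral_congr fun y hy => ?_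
    rw [uIcc_of_le hκ.le] at hy
    rw [ph_small (hy.2.trans hκ2)]
    push_cast
    rw [neg_mul, ← Complex.exp_add]
    congr 2
    ring
  have hs1' : s - 1 ≠ 0 := sub_ne_zero.2 hs1
  have hs1'' : 1 - s ≠ 0 := sub_ne_zero.2 (Ne.symm hs1)
  rw [e, intervalIntegral.integral_neg, integral_exp_mul_complex hs1'']
  rw [Complex.ofReal_zero, mul_zero, Complex.exp_zero, ← div_neg, neg_sub]

theorem shift_int (h : L2psi) (κ : ℝ) (hκ : 0 < κ) {s : ℂ} (hs : 1 / 2 < s.re) :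
    IntegrableOn (fun u : ℝ => (ph (u + κ) : ℂ) * cexp (-(s * (u + κ : ℝ)))) (Ioi 0) := by
  have h1 : IntegrableOn (fun w : ℝ => (ph w : ℂ) * cexp (-(s * w))) (Ioi κ) :=
    (term_int h hs).mono_set (Ioi_subset_Ioi hκ.le)
  have h2 := ((measurePreserving_add_right volume κ).integrableOn_comp_preimage
    (MeasurableEquiv.addRight κ).measurableEmbedding (s := Ioi κ)
    (f := fun w : ℝ => (ph w : ℂ) * cexp (-(s * w)))).2 h1
  rw [preimage_add_const_Ioi, sub_self] at h2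
  exact h2

theorem shift_val (h : L2psi) (κ : ℝ) (hκ : 0 < κ) (hκ2 : κ ≤ 1 / 2) {s : ℂ} (hs : 1 / 2 < s.re)
    (hs1 : s ≠ 1) :
    ∫ u in Ioi (0 : ℝ), (ph (u + κ) : ℂ) * cexp (-(s * (u + κ : ℝ))) =
      FF s - (cexp ((1 - s) * κ) - 1) / (s - 1) := by
  have h2 := (measurePreserving_add_right volume κ).setIntegral_preimage_emb
    (MeasurableEquiv.addRight κ).measurableEmbedding
    (fun w : ℝ => (ph w : ℂ) * cexp (-(s * w))) (Ioi κ)
  rw [preimage_add_const_Ioi, sub_self] at h2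
  rw [h2]
  have h3 := intervalIntegral.integral_Ioi_sub_Ioi (term_int h hs) hκ.le
  rw [initial hκ hκ2 hs1] at h3
  have h4 : FF s = ∫ w in Ioi (0 : ℝ), (ph w : ℂ) * cexp (-(s * w)) := rfl
  rw [← h4] at h3
  rw [← h3]
  ring

theorem Dl_term (κ u : ℝ) (s : ℂ) : (Dl κ u : ℂ) * cexp (-((s - 1 / 2) * u)) =
    cexp (κ * s) * ((ph (u + κ) : ℂ) * cexp (-(s * (u + κ : ℝ)))) - (ph u : ℂ) * cexp (-(s * u)) := by
  have e1 : cexp (-((s - 1 / 2) * u)) = cexp (u / 2) * cexp (-(s * u)) := by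
    rw [← Complex.exp_add]; congr 1; ring
  have e2 : cexp (κ * s) * ((ph (u + κ) : ℂ) * cexp (-(s * (u + κ : ℝ)))) =
      (ph (u + κ) : ℂ) * cexp (-(s * u)) := by
    rw [mul_left_comm, ← Complex.exp_add]; congr 2; push_cast; ring
  have e3 : cexp (-(u / 2)) * cexp (u / 2) = 1 := by
    rw [← Complex.exp_add]; simp
  rw [e2, e1]
  unfold Dl
  push_cast
  linear_combination ((ph (u + κ) : ℂ) - ph u) * cexp (-(s * u)) * e3

/-- J6c -/
theorem laplace (h : L2psi) {κ : ℝ} (hκ : 0 < κ) (hκ2 : κ ≤ 1 / 2) {s : ℂ} (hs : 1 / 2 < s.re)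
    (hs1 : s ≠ 1) :
    IntegrableOn (fun u : ℝ => (Dl κ u : ℂ) * cexp (-((s - 1 / 2) * u))) (Ioi 0) ∧
    ∫ u in Ioi (0 : ℝ), (Dl κ u : ℂ) * cexp (-((s - 1 / 2) * u)) =
      -((cexp (κ * s) - 1) / s) * (deriv riemannZeta s / riemannZeta s) - (cexp κ - 1) / (s - 1) := by
  have h1 := (shift_int h κ hκ hs).const_mul (cexp (κ * s))
  have h2 := term_int h hs
  have e : (fun u : ℝ => (Dl κ u : ℂ) * cexp (-((s - 1 / 2) * u))) = fun u : ℝ =>
      cexp (κ * s) * ((ph (u + κ) : ℂ) * cexp (-(s * (u + κ : ℝ)))) - (ph u : ℂ) * cexp (-(s * u)) := by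
    funext u
    exact Dl_term κ u s
  have hs1' : s - 1 ≠ 0 := sub_ne_zero.2 hs1
  have hs0 : s ≠ 0 := by
    rintro rfl
    simp at hs
    linarith
  rw [e]
  refine ⟨h1.sub h2, ?_⟩
  rw [integral_sub h1 h2, integral_const_mul, shift_val h κ hκ hκ2 hs hs1]
  have h4 : FF s = ∫ w in Ioi (0 : ℝ), (ph w : ℂ) * cexp (-(s * w)) := rfl
  rw [← h4, FF_val h hs hs1]
  have e5 : cexp κ = cexp (κ * s) * cexp ((1 - s) * κ) := by
    rw [← Complex.exp_add]; congr 1; ring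
  rw [e5]
  field_simp
  ring

end

end Pool.Agent.Q213.GM
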